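import Mathlib
import Pool.Prelude.Def_F_c31e40fa
import Pool.Agent.X201.MB.Fin

/-!
# Exterior maps of the Multibrot sets of large degree

Let `ψ_n` be the normalised conformal map from the exterior of the unit disc onto the complement of
the Multibrot set `M_n`. In terms of `c ^ (n - 1)` the set `M_n` lies between the discs
`|1 + c ^ (n - 1)| ≤ 1 - (2 log n + 6) / (n - 1)` and `|1 + c ^ (n - 1)| ≤ (2 n) ^ (1 / (n - 1))`, and

  `ψ_n(w) ^ (n - 1) = w ^ (n - 1) - 1 + error`,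

where, with `W = |w| ^ (n - 1)`, the error is at most
`64 (log n + 3) / (n - 1) * W log (1 / (1 - 1 / W))`. The error is small (and `ψ_n` as regular as the
explicit map) not only away from the unit circle but down to the super-exponentially small heights
`W - 1 ≥ exp (- ε n / log n)`.
-/

set_option autoImplicit false

namespace Pool.Agent.Results.MP_fcb70f_an.ExteriorAsymptotics

open N62a1eb23 Pool.Agent.H713R2

/-- Explicit asymptotics, as `n → ∞`, of the Multibrot set `M_n` and of its exterior conformal map. -/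
theorem result :
    ∀ n : ℕ, 32 ≤ n →
      (∀ c : ℂ, ‖1 + c ^ (n - 1)‖ ≤ 1 - (2 * Real.log n + 6) / ((n : ℝ) - 1) → c ∈ multibrotSet n) ∧
      (∀ c ∈ multibrotSet n, ‖1 + c ^ (n - 1)‖ ^ (n - 1) ≤ 2 * n) ∧
      (∃ ψ : ℂ → ℂ, IsExteriorMap (multibrotSet n) ψ) ∧
      ∀ ψ : ℂ → ℂ, IsExteriorMap (multibrotSet n) ψ → ∀ w : ℂ, 1 < ‖w‖ →
        ‖ψ w ^ (n - 1) - (w ^ (n - 1) - 1)‖ ≤ 64 * (Real.log n + 3) / ((n : ℝ) - 1) *
          (‖w‖ ^ (n - 1) * Real.log (1 / (1 - 1 / ‖w‖ ^ (n - 1)))) := by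
  intro n hn
  refine ⟨fun c hc => Pool.Agent.X201.MB.incl_lower (by omega) hc,
    fun c hc => Pool.Agent.X201.MB.incl_upper (by omega) hc, ?_,
    fun ψ hψ w hw => Pool.Agent.X201.MB.ext_asym hn hψ hw⟩
  obtain ⟨β, hβ⟩ := exists_beta (d := n) (by omega)
  exact ⟨_, exteriorMap_of_beta hβ⟩

end Pool.Agent.Results.MP_fcb70f_an.ExteriorAsymptotics
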