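import Mathlib
import Pool.Prelude.Def_F_c31e40fa
import Pool.Agent.X201.MB.Fin

/-!
# Laurent coefficients of the exterior maps of the Multibrot sets of large degree

`ψ_n(z) = z + ∑ b_m z ^ (-m)` is the exterior conformal map of `M_n`; only the coefficients with
`m = k (n - 1) - 1`, `k ≥ 1`, can be different from zero. They satisfy

  `(n - 1) b_m = - 1 / k + O(k log (k + 1) log n / n)`,

uniformly for `k` up to order `n / (log n) ^ 2`. In particular `m b_m → -1` for every fixed `k`, so that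
`sup_m m |b_m|` does not become small and no bound `|b_m| ≤ K m ^ (-1 - ε)` (which would give local
connectivity) can hold with `K`, `ε` independent of the degree.
-/

set_option autoImplicit false

open Filter Topology

namespace Pool.Agent.Results.MP_fcb70f_an.LaurentLimits

open N62a1eb23 Pool.Agent.H713R2

/-- Asymptotics of the Laurent coefficients of the exterior maps of the Multibrot sets, as the degree
tends to infinity. -/
theorem result :
    (∀ n : ℕ, 32 ≤ n →
      (∃ (ψ : ℂ → ℂ) (b : ℕ → ℂ), IsExteriorMap (multibrotSet n) ψ ∧ HasLaurent ψ b) ∧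
      ∀ (ψ : ℂ → ℂ) (b : ℕ → ℂ), IsExteriorMap (multibrotSet n) ψ → HasLaurent ψ b →
        (∀ m : ℕ, ¬ (n - 1) ∣ m + 1 → b m = 0) ∧
        ∀ k : ℕ, 1 ≤ k →
          128 * (Real.log n + 3) * (((k : ℝ) + 1) * Real.log (k + 1)) ≤ (n : ℝ) - 1 →
          ‖((n : ℂ) - 1) * b (k * (n - 1) - 1) + 1 / k‖ ≤
            1200 * (Real.log n + 3) * (((k : ℝ) + 1) * Real.log (k + 1)) / ((n : ℝ) - 1)) ∧
    ∀ (ψ : ℕ → ℂ → ℂ) (b : ℕ → ℕ → ℂ),
      (∀ n : ℕ, 2 ≤ n → IsExteriorMap (multibrotSet n) (ψ n) ∧ HasLaurent (ψ n) (b n)) →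
      ∀ k : ℕ, 1 ≤ k →
        Tendsto (fun n : ℕ => ((k * (n - 1) - 1 : ℕ) : ℂ) * b n (k * (n - 1) - 1)) atTop (𝓝 (-1)) := by
  refine ⟨?_, ?_⟩
  · intro n hn
    obtain ⟨β, hβ⟩ := exists_beta (d := n) (by omega)
    refine ⟨⟨_, _, exteriorMap_of_beta hβ, laurent_of_beta hβ⟩, ?_⟩
    intro ψ b hψ hb
    have h1 := exterior_coeff hβ hψ hb
    refine ⟨?_, ?_⟩
    · intro m hm
      obtain ⟨B, -, -, -, h2, -⟩ := Pool.Agent.X201.MB.data hn hβ
      rw [h1]
      exact h2 _ hm
    · intro k hk hkn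
      rw [h1]
      have h2 : k * (n - 1) - 1 + 1 = k * (n - 1) := by
        have : 1 ≤ k * (n - 1) := Nat.one_le_iff_ne_zero.mpr (Nat.mul_ne_zero (by omega) (by omega))
        omega
      rw [h2]
      exact Pool.Agent.X201.MB.coeff_asym hn hβ hk hkn
  · intro ψ b h k hk
    choose β hβ using fun n : ℕ => fun hn : 2 ≤ n => exists_beta (d := n) hn
    set β' : ℕ → ℂ → ℂ := fun n => if hn : 2 ≤ n then β n hn else fun _ => 0 with hβ'
    have hβ'' : ∀ n, 2 ≤ n → IsBeta n (β' n) := by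
      intro n hn
      simp only [hβ', dif_pos hn]
      exact hβ n hn
    have h1 := Pool.Agent.X201.MB.limit_coeff hβ'' hk
    have hk0 : (k:ℂ) ≠ 0 := by exact_mod_cast (by omega : k ≠ 0)
    have h2 : Tendsto (fun n : ℕ => ((k:ℂ) - 1 / ((n:ℂ) - 1))) atTop (𝓝 ((k:ℂ) - 0)) := by
      apply Tendsto.sub tendsto_const_nhds
      have h3 : Tendsto (fun n : ℕ => (1:ℝ) / ((n:ℝ) - 1)) atTop (𝓝 0) := by
        have h4 : Tendsto (fun n : ℕ => (n:ℝ) - 1) atTop atTop :=
          tendsto_atTop_add_const_right _ (-1) tendsto_natCast_atTop_atTop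
        refine h4.inv_tendsto_atTop.congr fun n => ?_
        simp
      have h5 : Tendsto (fun n : ℕ => ((1 / ((n:ℝ) - 1) : ℝ) : ℂ)) atTop (𝓝 ((0:ℝ):ℂ)) :=
        (Complex.continuous_ofReal.tendsto 0).comp h3
      rw [Complex.ofReal_zero] at h5
      refine h5.congr fun n => ?_
      push_cast
      rfl
    have h3 := h1.mul h2
    rw [sub_zero, neg_mul, one_div, inv_mul_cancel₀ hk0] at h3
    refine h3.congr' ?_
    filter_upwards [eventually_ge_atTop 2] with n hn
    obtain ⟨hψn, hbn⟩ := h n hn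
    rw [exterior_coeff (hβ'' n hn) hψn hbn]
    have h6 : 1 ≤ k * (n - 1) := Nat.one_le_iff_ne_zero.mpr (Nat.mul_ne_zero (by omega) (by omega))
    have h7 : k * (n - 1) - 1 + 1 = k * (n - 1) := by omega
    rw [h7, Nat.cast_sub h6, Nat.cast_mul, Nat.cast_sub (by omega)]
    have h8 : (n:ℂ) - 1 ≠ 0 := by
      have : ((n:ℝ)) - 1 ≠ 0 := by
        have hnr : (2:ℝ) ≤ n := by exact_mod_cast hn
        linarith
      exact_mod_cast this
    push_cast
    field_simp

end Pool.Agent.Results.MP_fcb70f_an.LaurentLimits
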