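import Mathlib
import Pool.Prelude.Def_F_c31e40fa
import Pool.Agent.X201.MB.Chan
import Pool.Agent.X201.MB.Coarse

/-!
# The modulus of local connectivity of the Multibrot sets

Local connectivity of the compact set `M_n` means that its modulus of local connectivity
`ω_n(t)` (the least upper bound, over the pairs `x, y ∈ M_n` at distance at most `t`, of the
diameters needed to join `x` to `y` by a continuum inside `M_n`) tends to `0` with `t`.

* `ω_n(t) ≤ t + 2 (log n + 9) / (n - 1)` for all `t` and all `n ≥ 2`;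
* the order `log n / n` of the additive error is sharp, with optimal constant between `1` and `2`:
  the least additive error `K_n` satisfies `(log n - 2 π) / (n - 1) ≤ K_n ≤ 2 (log n + 9) / (n - 1)`,
  and `ω_n(2 π / (n - 1)) ≥ log n / (n - 1)`;
* at the scales below `1 / n` one has `ω_n(t) ≥ t ^ (2/3) n ^ (-1/3) / 24`.
-/

set_option autoImplicit false

namespace Pool.Agent.Results.MP_fcb70f_an.SharpModulus

open N62a1eb23

/-- `S` is a continuum in the Multibrot set `M_n` which contains `x` and `y`. -/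
def Joins (n : ℕ) (S : Set ℂ) (x y : ℂ) : Prop :=
  S ⊆ multibrotSet n ∧ IsCompact S ∧ IsConnected S ∧ x ∈ S ∧ y ∈ S

/-- The additive errors `K`: any two points `x, y` of `M_n` are joined by a continuum in `M_n` of
diameter at most `|x - y| + K`. -/
def errors (n : ℕ) : Set ℝ :=
  {K | ∀ x ∈ multibrotSet n, ∀ y ∈ multibrotSet n, ∃ S : Set ℂ, Joins n S x y ∧
    Metric.diam S ≤ dist x y + K}

/-- (1) The optimal additive error is of exact order `log n / n`, with constant between `1` and `2`.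
(2) It is attained at distance `2 π / (n - 1)`. (3) At the scales `t ≤ 1 / n` the modulus of local
connectivity is at least `(t ^ 2 / n) ^ (1 / 3) / 24`. -/
theorem result :
    (∀ n : ℕ, 2 ≤ n → 2 * ((Real.log n + 9) / ((n : ℝ) - 1)) ∈ errors n ∧
      ∀ K ∈ errors n, (Real.log n - 2 * Real.pi) / ((n : ℝ) - 1) ≤ K) ∧
    (∀ n : ℕ, 3 ≤ n → ∃ x ∈ multibrotSet n, ∃ y ∈ multibrotSet n,
      dist x y ≤ 2 * Real.pi / ((n : ℝ) - 1) ∧
      ∀ S ⊆ multibrotSet n, IsConnected S → x ∈ S → y ∈ S →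
        Real.log n / ((n : ℝ) - 1) ≤ Metric.diam S) ∧
    (∀ n : ℕ, 2 ≤ n → ∀ t : ℝ, 0 < t → t ≤ 1 / n →
      ∃ x ∈ multibrotSet n, ∃ y ∈ multibrotSet n, dist x y ≤ t ∧
        ∀ S ⊆ multibrotSet n, IsConnected S → x ∈ S → y ∈ S →
          (t ^ 2 / n) ^ (1 / 3 : ℝ) / 24 ≤ Metric.diam S) := by
  refine ⟨fun n hn => ⟨?_, ?_⟩, fun n hn => Pool.Agent.X201.MB.part1 hn,
    fun n hn t ht htn => Pool.Agent.X201.MB.part2 hn ht htn⟩
  · intro x hx y hy
    obtain ⟨S, h1, h2, h3, h4, h5, h6⟩ := Pool.Agent.X201.MB.coarse2 hn hx hy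
    exact ⟨S, ⟨h1, h2, h3, h4, h5⟩, h6⟩
  · intro K hK
    have hnr : (2:ℝ) ≤ n := by exact_mod_cast hn
    have h0 : 0 < (n:ℝ) - 1 := by linarith
    have hpi := Real.pi_pos
    by_cases hn3 : 3 ≤ n
    · obtain ⟨x, hx, y, hy, hd, hS⟩ := Pool.Agent.X201.MB.part1 hn3
      obtain ⟨S, ⟨h1, -, h3, h4, h5⟩, h6⟩ := hK x hx y hy
      have h7 := hS S h1 h3 h4 h5
      have e : (Real.log n - 2 * Real.pi) / ((n : ℝ) - 1)
        = Real.log n / ((n : ℝ) - 1) - 2 * Real.pi / ((n : ℝ) - 1) := by ring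
      rw [e]
      linarith
    · have hn2 : n = 2 := by omega
      subst hn2
      -- the left side is negative and `K ≥ 0`
      have h0M : (0 : ℂ) ∈ multibrotSet 2 :=
        Pool.Agent.H712R2.disc_subset le_rfl (by simpa using (Pool.Agent.H712R2.rr_pos le_rfl).le)
      obtain ⟨S, -, h6⟩ := hK 0 h0M 0 h0M
      have h7 : 0 ≤ Metric.diam S := Metric.diam_nonneg
      rw [dist_self, zero_add] at h6
      have h8 : Real.log 2 < 1 := by
        have := Real.log_two_lt_d9
        linarith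
      have h9 : 3 < Real.pi := Real.pi_gt_three
      refine le_trans ?_ (h7.trans h6)
      norm_num
      linarith

end Pool.Agent.Results.MP_fcb70f_an.SharpModulus
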