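import Mathlib
import Pool.Prelude.Def_F_c31e40fa
import Pool.Agent.X201.MB.Up2

/-!
# The exterior maps of the Multibrot sets up to the boundary

Let `ψ_n` be the normalised conformal map from the exterior of the unit disc onto the complement of
the Multibrot set `M_n`. By Carathéodory's theorem `M_n` is locally connected if and only if all
the impressions of `ψ_n` (the sets of its limit values at the points of the unit circle) are single
points. We prove, for every degree `n ≥ 2` and without any restriction near the circle: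

* `|arg (ψ_n(w) / w)| < π / (n - 1)` and `|log (ψ_n(w) / w)| ≤ (log n + 5) / (n - 1)` for all
  `|w| > 1`, and this is sharp up to the additive constant `5`;
* every impression has diameter at most `(log n + 12) / (n - 1)`;
* for `n ≥ 32`, on every circle `|w| = R > 1`, outside a set of angles of measure at most
  `72 exp (- s (n - 1) / (16 (log n + 3)))`, the distance of `ψ_n(w) ^ (n - 1)` to
  `w ^ (n - 1) - 1` is less than `s |w| ^ (n - 1)`.
-/

set_option autoImplicit false

namespace Pool.Agent.Results.MP_fcb70f_an.UpToBoundary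

open N62a1eb23 Pool.Agent.H713R2 Topology MeasureTheory

/-- The impression of the exterior map `ψ` at the point `ζ` of the unit circle: the set of all the
limit values of `ψ(w)` as `w → ζ`, `|w| > 1`. -/
def impression (ψ : ℂ → ℂ) (ζ : ℂ) : Set ℂ :=
  {c | MapClusterPt c (𝓝[{w : ℂ | 1 < ‖w‖}] ζ) ψ}

/-- Uniform control of the exterior maps of the Multibrot sets up to the boundary. -/
theorem result :
    ∀ n : ℕ, 2 ≤ n →
      (∃ ψ : ℂ → ℂ, IsExteriorMap (multibrotSet n) ψ) ∧
      ∀ ψ : ℂ → ℂ, IsExteriorMap (multibrotSet n) ψ →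
        (∀ w : ℂ, 1 < ‖w‖ → |Complex.arg (ψ w / w)| < Real.pi / ((n : ℝ) - 1) ∧
          ‖Complex.log (ψ w / w)‖ ≤ (Real.log n + 5) / ((n : ℝ) - 1)) ∧
        (∃ w : ℂ, 1 < ‖w‖ ∧ Real.log n / ((n : ℝ) - 1) < ‖Complex.log (ψ w / w)‖) ∧
        (∀ ζ : ℂ, ‖ζ‖ = 1 → ∀ c ∈ impression ψ ζ, ∀ c' ∈ impression ψ ζ,
          ‖c - c'‖ ≤ (Real.log n + 12) / ((n : ℝ) - 1)) ∧
        (32 ≤ n → ∀ R s : ℝ, 1 < R → 0 ≤ s →
          volume {θ : ℝ | θ ∈ Set.Icc 0 (2 * Real.pi) ∧ s * R ^ (n - 1) ≤
            ‖ψ ((R : ℂ) * Complex.exp (θ * Complex.I)) ^ (n - 1) -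
              (((R : ℂ) * Complex.exp (θ * Complex.I)) ^ (n - 1) - 1)‖} ≤
          ENNReal.ofReal (72 * Real.exp (-(s * ((n : ℝ) - 1) / (16 * (Real.log n + 3)))))) := by
  intro n hn
  refine ⟨?_, fun ψ hψ => ⟨fun w hw => ⟨?_, ?_⟩, ?_, ?_, ?_⟩⟩
  · obtain ⟨β, hβ⟩ := exists_beta (d := n) hn
    exact ⟨_, exteriorMap_of_beta hβ⟩
  · obtain ⟨z, -, h2, -, -, h5⟩ := Pool.Agent.X201.MB.psi_log hn hψ hw
    rw [← Complex.log_im, h2]
    exact h5
  · exact Pool.Agent.X201.MB.norm_log_le hn hψ hw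
  · exact Pool.Agent.X201.MB.exists_far hn hψ
  · intro ζ hζ c hc c' hc'
    exact Pool.Agent.X201.MB.impression hn hψ hζ hc hc'
  · intro h32 R s hR hs
    exact Pool.Agent.X201.MB.meas_final h32 hψ hR hs

end Pool.Agent.Results.MP_fcb70f_an.UpToBoundary
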